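import Pool.Agent.H958.RL.Stm2
import Pool.Agent.H331.RL.Refl

/-!
# Project RL (helper958), part EN: the expected size of `NK`
-/

set_option autoImplicit false

namespace Pool.Agent.H415.RL.En

open Finset
open scoped Classical
open Pool.Agent.W830.RD (Om gle Pr Rlz)
open Pool.Agent.H958.RL

noncomputable section

variable {n : ℕ}

/-- The up-set of `x`. -/
def UU (E : Finset (Fin n × Fin n)) (x : Fin n) : Finset (Fin n) :=
  univ.filter (fun u => gle E x u)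

/-- The down-set of `x`. -/
def DD (E : Finset (Fin n × Fin n)) (x : Fin n) : Finset (Fin n) :=
  univ.filter (fun u => gle E u x)

theorem mem_UU {E : Finset (Fin n × Fin n)} {x u : Fin n} : u ∈ UU E x ↔ gle E x u := by
  unfold UU
  rw [mem_filter]
  exact ⟨fun h => h.2, fun h => ⟨mem_univ _, h⟩⟩

theorem mem_DD {E : Finset (Fin n × Fin n)} {x u : Fin n} : u ∈ DD E x ↔ gle E u x := by
  unfold DD
  rw [mem_filter]
  exact ⟨fun h => h.2, fun h => ⟨mem_univ _, h⟩⟩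

theorem NK_sub (E : Finset (Fin n × Fin n)) (K : ℕ) :
    NK E K ⊆ (univ.filter (fun x => K < (UU E x).card)).biUnion (fun x => UU E x) ∪
      (univ.filter (fun b => K < (DD E b).card)).biUnion
        (fun b => (DD E b).biUnion (fun x => UU E x)) := by
  intro w hw
  obtain ⟨x, b, hb, hxw, hxb⟩ := (mem_filter.1 hw).2
  rw [mem_union]
  rcases hb with hb | hb
  · left
    rw [mem_biUnion]
    refine ⟨x, ?_, mem_UU.2 hxw⟩
    rw [mem_filter]
    refine ⟨mem_univ _, lt_of_lt_of_le hb (card_le_card ?_)⟩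
    intro u hu
    exact mem_UU.2 (Relation.ReflTransGen.trans hxb (mem_filter.1 hu).2)
  · right
    rw [mem_biUnion]
    refine ⟨b, mem_filter.2 ⟨mem_univ _, hb⟩, ?_⟩
    rw [mem_biUnion]
    exact ⟨x, mem_DD.2 hxb, mem_UU.2 hxw⟩

theorem NK_card (E : Finset (Fin n × Fin n)) (K : ℕ) :
    (NK E K).card ≤ ∑ x ∈ univ.filter (fun x => K < (UU E x).card), (UU E x).card +
      ∑ b ∈ univ.filter (fun b => K < (DD E b).card), ∑ x ∈ DD E b, (UU E x).card := by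
  refine (card_le_card (NK_sub E K)).trans ((card_union_le _ _).trans (add_le_add ?_ ?_))
  · exact card_biUnion_le
  · refine card_biUnion_le.trans (sum_le_sum fun b _ => ?_)
    exact card_biUnion_le

theorem aux1 (u K r : ℕ) (hK : 1 ≤ K) (h : K < u) :
    (u : ℝ) ≤ ((K : ℝ) ^ r)⁻¹ * (u : ℝ) ^ (r + 1) := by
  have hK0 : (0 : ℝ) < K := by exact_mod_cast hK
  have h1 : (K : ℝ) ≤ u := by exact_mod_cast h.le
  have h2 : (K : ℝ) ^ r ≤ (u : ℝ) ^ r := pow_le_pow_left₀ hK0.le h1 r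
  have h3 : 0 < (K : ℝ) ^ r := pow_pos hK0 r
  have h4 : (K : ℝ) ^ r * (u : ℝ) ≤ (u : ℝ) ^ (r + 1) := by
    rw [pow_succ]
    exact mul_le_mul_of_nonneg_right h2 (Nat.cast_nonneg u)
  have h5 := mul_le_mul_of_nonneg_left h4 (inv_nonneg.2 h3.le)
  rwa [← mul_assoc, inv_mul_cancel₀ h3.ne', one_mul] at h5

theorem aux2 (K r : ℕ) (hK : 1 ≤ K) (f : Fin n → ℕ) :
    ∑ x ∈ univ.filter (fun x => K < f x), (f x : ℝ) ≤
      ((K : ℝ) ^ r)⁻¹ * ∑ x, (f x : ℝ) ^ (r + 1) := by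
  rw [mul_sum]
  refine (sum_le_sum fun x hx => aux1 (f x) K r hK (mem_filter.1 hx).2).trans ?_
  refine sum_le_sum_of_subset_of_nonneg (filter_subset _ _) fun x _ _ => ?_
  positivity

theorem amgm (lam u : ℝ) (hl : 0 < lam) : u ≤ lam / 2 + lam⁻¹ / 2 * u ^ 2 := by
  have h : lam / 2 + lam⁻¹ / 2 * u ^ 2 - u = lam⁻¹ / 2 * (lam - u) ^ 2 := by
    field_simp
    ring
  have h2 : 0 ≤ lam⁻¹ / 2 * (lam - u) ^ 2 := by positivity
  linarith

theorem swap (E : Finset (Fin n × Fin n)) :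
    ∑ b, ∑ x ∈ DD E b, ((UU E x).card : ℝ) ^ 2 = ∑ x, ((UU E x).card : ℝ) ^ 3 := by
  rw [sum_comm' (s' := fun x => UU E x) (t' := univ)]
  · refine sum_congr rfl fun x _ => ?_
    rw [sum_const, nsmul_eq_mul]
    ring
  · intro b x
    rw [mem_DD, mem_UU]
    exact ⟨fun h => ⟨h.2, mem_univ _⟩, fun h => ⟨mem_univ _, h.1⟩⟩

theorem pointwise (E : Finset (Fin n × Fin n)) (lam : ℝ) (hl : 0 < lam) (K r : ℕ) (hK : 1 ≤ K) :
    ((NK E K).card : ℝ) ≤
      ((K : ℝ) ^ r)⁻¹ * ∑ x, ((UU E x).card : ℝ) ^ (r + 1) +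
      (lam / 2 * (((K : ℝ) ^ r)⁻¹ * ∑ x, ((DD E x).card : ℝ) ^ (r + 1)) +
        lam⁻¹ / 2 * ∑ x, ((UU E x).card : ℝ) ^ 3) := by
  have h0 : ((NK E K).card : ℝ) ≤
      ∑ x ∈ univ.filter (fun x => K < (UU E x).card), ((UU E x).card : ℝ) +
      ∑ b ∈ univ.filter (fun b => K < (DD E b).card), ∑ x ∈ DD E b, ((UU E x).card : ℝ) := by
    exact_mod_cast NK_card E K
  refine h0.trans (add_le_add (aux2 K r hK fun x => (UU E x).card) ?_)
  have h1 : ∀ b : Fin n, ∑ x ∈ DD E b, ((UU E x).card : ℝ) ≤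
      lam / 2 * ((DD E b).card : ℝ) + lam⁻¹ / 2 * ∑ x ∈ DD E b, ((UU E x).card : ℝ) ^ 2 := by
    intro b
    refine (sum_le_sum fun x _ => amgm lam ((UU E x).card : ℝ) hl).trans (le_of_eq ?_)
    rw [sum_add_distrib, sum_const, nsmul_eq_mul, mul_sum]
    ring
  refine (sum_le_sum fun b _ => h1 b).trans ?_
  rw [sum_add_distrib, ← mul_sum, ← mul_sum]
  refine add_le_add ?_ ?_
  · exact mul_le_mul_of_nonneg_left (aux2 K r hK fun x => (DD E x).card) (by positivity)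
  · refine mul_le_mul_of_nonneg_left ?_ (by positivity)
    rw [← swap E]
    refine sum_le_sum_of_subset_of_nonneg (filter_subset _ _) fun b _ _ => ?_
    exact sum_nonneg fun x _ => by positivity

/-! ### Expectations -/

theorem Ex_mono {p : ℝ} (hp : 0 < p) (hp1 : p < 1) {g h : Finset (Fin n × Fin n) → ℝ}
    (hgh : ∀ E, g E ≤ h E) : Ex p n g ≤ Ex p n h := by
  unfold Ex
  refine sum_le_sum fun E _ => mul_le_mul_of_nonneg_right (hgh E) ?_
  have : 0 ≤ 1 - p := by linarith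
  positivity

theorem Ex_add (p : ℝ) (g h : Finset (Fin n × Fin n) → ℝ) :
    Ex p n (fun E => g E + h E) = Ex p n g + Ex p n h := by
  unfold Ex
  rw [← sum_add_distrib]
  exact sum_congr rfl fun E _ => add_mul _ _ _

theorem Ex_mul (p c : ℝ) (g : Finset (Fin n × Fin n) → ℝ) :
    Ex p n (fun E => c * g E) = c * Ex p n g := by
  unfold Ex
  rw [mul_sum]
  exact sum_congr rfl fun E _ => mul_assoc _ _ _

theorem Ex_sum {ι : Type} (p : ℝ) (s : Finset ι) (g : ι → Finset (Fin n × Fin n) → ℝ) :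
    Ex p n (fun E => ∑ x ∈ s, g x E) = ∑ x ∈ s, Ex p n (g x) := by
  unfold Ex
  rw [sum_comm]
  exact sum_congr rfl fun E _ => sum_mul _ _ _

/-! ### Reflection -/

theorem mem_rv {E : Finset (Fin n × Fin n)} {a b : Fin n} (h : (a, b) ∈ rv E) :
    (Fin.rev b, Fin.rev a) ∈ E := by
  unfold rv at h
  rw [mem_image] at h
  obtain ⟨e, he, h⟩ := h
  rw [Prod.mk.injEq] at h
  rw [← h.1, ← h.2, Fin.rev_rev, Fin.rev_rev]
  exact he

theorem gle_rv {E : Finset (Fin n × Fin n)} {x y : Fin n} (h : gle (rv E) x y) :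
    gle E (Fin.rev y) (Fin.rev x) := by
  induction h with
  | refl => exact Relation.ReflTransGen.refl
  | tail _ h2 ih => exact Relation.ReflTransGen.head (mem_rv h2) ih

theorem gle_rv' {E : Finset (Fin n × Fin n)} {x y : Fin n} (h : gle E (Fin.rev y) (Fin.rev x)) :
    gle (rv E) x y := by
  have h1 : gle (rv (rv E)) (Fin.rev y) (Fin.rev x) := by
    rw [Pool.Agent.H331.RL.Refl.rv_rv]
    exact h
  have h2 := gle_rv h1
  rwa [Fin.rev_rev, Fin.rev_rev] at h2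

theorem DD_rv (E : Finset (Fin n × Fin n)) (b : Fin n) :
    (DD (rv E) b).card = (UU E (Fin.rev b)).card := by
  refine card_bij (fun u _ => Fin.rev u) ?_ ?_ ?_
  · intro u hu
    exact mem_UU.2 (gle_rv (mem_DD.1 hu))
  · intro u _ v _ h
    exact Fin.rev_injective h
  · intro u hu
    refine ⟨Fin.rev u, ?_, Fin.rev_rev u⟩
    rw [mem_DD]
    refine gle_rv' ?_
    rw [Fin.rev_rev]
    exact mem_UU.1 hu

/-- Part EN. -/
theorem main (h1 : S_MOM) (h2 : S_EXREFL) : S_EN := by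
  intro p lam δ n K r hp hp1 hl hK hr hδ
  have hK0 : (0 : ℝ) < (K : ℝ) ^ r := pow_pos (by exact_mod_cast hK) r
  have hU : ∀ x : Fin n, ((K : ℝ) ^ r)⁻¹ * Ex p n (fun E => ((UU E x).card : ℝ) ^ (r + 1)) ≤ δ := by
    intro x
    refine le_trans ?_ hδ
    rw [div_eq_inv_mul]
    exact mul_le_mul_of_nonneg_left (h1 p n (r + 1) x hp hp1 (by omega)) (inv_nonneg.2 hK0.le)
  have hD : ∀ x : Fin n, ((K : ℝ) ^ r)⁻¹ * Ex p n (fun E => ((DD E x).card : ℝ) ^ (r + 1)) ≤ δ := by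
    intro x
    have h3 := h2 p n (fun E => ((DD E x).card : ℝ) ^ (r + 1))
    have h4 : (fun E : Finset (Fin n × Fin n) => ((DD (rv E) x).card : ℝ) ^ (r + 1)) =
        fun E => ((UU E (Fin.rev x)).card : ℝ) ^ (r + 1) := by
      funext E
      rw [DD_rv]
    rw [← h3]
    show ((K : ℝ) ^ r)⁻¹ *
      Ex p n (fun E : Finset (Fin n × Fin n) => ((DD (rv E) x).card : ℝ) ^ (r + 1)) ≤ δ
    rw [h4]
    exact hU (Fin.rev x)
  have hU3 : ∀ x : Fin n, Ex p n (fun E => ((UU E x).card : ℝ) ^ 3) ≤ 6 * (1 + 3 * p) ^ n := by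
    intro x
    have h3 := h1 p n 3 x hp hp1 (by norm_num)
    have h4 : ((Nat.factorial 3 : ℕ) : ℝ) * (1 + ((3 : ℕ) : ℝ) * p) ^ n =
        6 * (1 + 3 * p) ^ n := by
      norm_num [Nat.factorial]
    rw [h4] at h3
    exact h3
  refine (Ex_mono hp hp1 fun E => pointwise E lam hl K r hK).trans ?_
  rw [Ex_add, Ex_add, Ex_mul, Ex_mul, Ex_mul, Ex_mul, Ex_sum, Ex_sum, Ex_sum]
  have s1 : ((K : ℝ) ^ r)⁻¹ * ∑ x : Fin n, Ex p n (fun E => ((UU E x).card : ℝ) ^ (r + 1)) ≤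
      n * δ := by
    rw [mul_sum]
    refine (sum_le_sum fun x _ => hU x).trans (le_of_eq ?_)
    rw [sum_const, card_univ, Fintype.card_fin, nsmul_eq_mul]
  have s2 : ((K : ℝ) ^ r)⁻¹ * ∑ x : Fin n, Ex p n (fun E => ((DD E x).card : ℝ) ^ (r + 1)) ≤
      n * δ := by
    rw [mul_sum]
    refine (sum_le_sum fun x _ => hD x).trans (le_of_eq ?_)
    rw [sum_const, card_univ, Fintype.card_fin, nsmul_eq_mul]
  have s3 : ∑ x : Fin n, Ex p n (fun E => ((UU E x).card : ℝ) ^ 3) ≤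
      n * (6 * (1 + 3 * p) ^ n) := by
    refine (sum_le_sum fun x _ => hU3 x).trans (le_of_eq ?_)
    rw [sum_const, card_univ, Fintype.card_fin, nsmul_eq_mul]
  have t2 := mul_le_mul_of_nonneg_left s2 (by positivity : 0 ≤ lam / 2)
  have t3 := mul_le_mul_of_nonneg_left s3 (by positivity : 0 ≤ lam⁻¹ / 2)
  calc _ ≤ n * δ + (lam / 2 * (n * δ) + lam⁻¹ / 2 * (n * (6 * (1 + 3 * p) ^ n))) :=
        add_le_add s1 (add_le_add t2 t3)
    _ = n * (δ + (lam * δ + lam⁻¹ * (6 * (1 + 3 * p) ^ n)) / 2) := by ring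

end

end Pool.Agent.H415.RL.En
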